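import Pool.Agent.Y522.FA.Stm2

/-!
# Project FA, tasks Dst and Gram: Riemannian surfaces in charts
-/

set_option autoImplicit false

open Set Filter Topology Metric Function MeasureTheory Bundle Manifold
open scoped Manifold ContDiff Real NNReal ENNReal

noncomputable section

namespace Pool.Agent.H170.FA

open Pool.Agent.Y522.FA

section

variable {M : Type} [TopologicalSpace M]

theorem co_img (e : OpenPartialHomeomorph M (EuclideanHalfSpace 2)) :
    co e '' e.source = (e.extend (𝓡∂ 2)).target :=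
  (OpenPartialHomeomorph.extend_target_eq_image_source e).symm

theorem pa_smooth [ChartedSpace (EuclideanHalfSpace 2) M] [IsManifold (𝓡∂ 2) ∞ M] {e : OpenPartialHomeomorph M (EuclideanHalfSpace 2)}
    (he : e ∈ IsManifold.maximalAtlas (𝓡∂ 2) ∞ M) :
    ContMDiffOn 𝓘(ℝ, E2) (𝓡∂ 2) ∞ (pa e) (co e '' e.source) := by
  rw [co_img, OpenPartialHomeomorph.extend_target']
  exact contMDiffOn_extend_symm he

theorem img_mem (e : OpenPartialHomeomorph M (EuclideanHalfSpace 2)) {z : E2}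
    (hz : z ∈ co e '' e.source) : co e '' e.source ∈ 𝓝[range (𝓡∂ 2)] z := by
  obtain ⟨x, hx, rfl⟩ := hz
  rw [co_img]
  exact OpenPartialHomeomorph.extend_target_mem_nhdsWithin e hx

theorem img_sub (e : OpenPartialHomeomorph M (EuclideanHalfSpace 2)) :
    co e '' e.source ⊆ range (𝓡∂ 2) := by
  rw [co_img]
  exact OpenPartialHomeomorph.extend_target_subset_range e

theorem pa_mdiff [ChartedSpace (EuclideanHalfSpace 2) M] [IsManifold (𝓡∂ 2) ∞ M] {e : OpenPartialHomeomorph M (EuclideanHalfSpace 2)}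
    (he : e ∈ IsManifold.maximalAtlas (𝓡∂ 2) ∞ M) {z : E2} (hz : z ∈ co e '' e.source) :
    MDifferentiableWithinAt 𝓘(ℝ, E2) (𝓡∂ 2) (pa e) (range (𝓡∂ 2)) z :=
  (((pa_smooth he).mdifferentiableOn (by simp)) z hz).mono_of_mem_nhdsWithin (img_mem e hz)

end

set_option backward.isDefEq.respectTransparency false in
theorem stDst : StDst := by
  intro M _ _ _ _ _ _ e he w w' C hseg hC
  have hC0 : 0 ≤ C := (norm_nonneg _).trans (hC w (left_mem_segment ℝ w w'))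
  rw [← edist_le_ofReal hC0, IsRiemannianManifold.out (I := 𝓡∂ 2) (M := M) (pa e w) (pa e w')]
  let η := ContinuousAffineMap.lineMap (R := ℝ) w w'
  set γ : ℝ → M := pa e ∘ η with hγ
  have hη : Icc (0 : ℝ) 1 ⊆ ⇑η ⁻¹' segment ℝ w w' := by
    rw [← image_subset_iff]
    simp only [ContinuousAffineMap.coe_lineMap_eq, ← segment_eq_image_lineMap, η]
    exact subset_rfl
  have η_smooth : ContMDiffOn 𝓘(ℝ, ℝ) 𝓘(ℝ, E2) 1 η (Icc 0 1) := by
    apply ContMDiff.contMDiffOn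
    rw [contMDiff_iff_contDiff]
    exact ContinuousAffineMap.contDiff _
  have h1 : riemannianEDist (𝓡∂ 2) (pa e w) (pa e w') ≤ pathELength (𝓡∂ 2) γ 0 1 := by
    apply riemannianEDist_le_pathELength _ _ _ zero_le_one
    · exact ((pa_smooth he).of_le (by simp)).comp η_smooth (fun t ht => hseg (hη ht))
    · simp [γ, η, ContinuousAffineMap.coe_lineMap_eq]
    · simp [γ, η, ContinuousAffineMap.coe_lineMap_eq]
  refine h1.trans ?_
  rw [pathELength_eq_lintegral_mfderivWithin_Icc]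
  have h2 : ∀ t ∈ Icc (0 : ℝ) 1,
      ‖mfderivWithin 𝓘(ℝ, ℝ) (𝓡∂ 2) γ (Icc 0 1) t 1‖ₑ ≤ ENNReal.ofReal C := by
    intro t ht
    have e1 : mfderivWithin 𝓘(ℝ, ℝ) (𝓡∂ 2) γ (Icc 0 1) t =
        (mfderivWithin 𝓘(ℝ, E2) (𝓡∂ 2) (pa e) (range (𝓡∂ 2)) (η t)) ∘L
          (mfderivWithin 𝓘(ℝ, ℝ) 𝓘(ℝ, E2) η (Icc 0 1) t) := by
      apply mfderivWithin_comp
      · exact pa_mdiff he (hseg (hη ht))
      · exact η_smooth.mdifferentiableOn one_ne_zero t ht
      · exact fun s hs => img_sub e (hseg (hη hs))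
      · rw [uniqueMDiffWithinAt_iff_uniqueDiffWithinAt]
        exact uniqueDiffOn_Icc zero_lt_one t ht
    have e2 : mfderivWithin 𝓘(ℝ, ℝ) 𝓘(ℝ, E2) η (Icc 0 1) t 1 = w' - w := by
      rw [mfderivWithin_eq_fderivWithin, fderivWithin_eq_fderiv (uniqueDiffOn_Icc zero_lt_one t ht)
        (ContinuousAffineMap.differentiableAt _),
        show w' - w = fderiv ℝ (ContinuousAffineMap.lineMap (R := ℝ) w w') t 1 by simp]
      rfl
    have e3 : mfderivWithin 𝓘(ℝ, ℝ) (𝓡∂ 2) γ (Icc 0 1) t 1 = tv e (η t) (w' - w) := by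
      rw [e1]
      show (mfderivWithin 𝓘(ℝ, E2) (𝓡∂ 2) (pa e) (range (𝓡∂ 2)) (η t))
        (mfderivWithin 𝓘(ℝ, ℝ) 𝓘(ℝ, E2) η (Icc 0 1) t 1) = _
      rw [e2]
      rfl
    rw [e3, ← ofReal_norm]
    exact ENNReal.ofReal_le_ofReal (hC _ (hη ht))
  calc ∫⁻ t in Icc (0 : ℝ) 1, ‖mfderivWithin 𝓘(ℝ, ℝ) (𝓡∂ 2) γ (Icc 0 1) t 1‖ₑ
      ≤ ∫⁻ _ in Icc (0 : ℝ) 1, ENNReal.ofReal C := setLIntegral_mono' measurableSet_Icc h2
    _ = ENNReal.ofReal C := by simp

end Pool.Agent.H170.FA
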