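import Pool.Agent.H170.FA.Dst

/-!
# Project FA, task Gram: the Gram matrix of a chart
-/

set_option autoImplicit false

open Set Filter Topology Metric Function MeasureTheory Bundle Manifold
open scoped Manifold ContDiff Real NNReal ENNReal

noncomputable section

namespace Pool.Agent.H170.FA

open Pool.Agent.Y522.FA

section

variable {M : Type} [TopologicalSpace M]

theorem img_uniq (e : OpenPartialHomeomorph M (EuclideanHalfSpace 2)) :
    UniqueMDiffOn 𝓘(ℝ, E2) (co e '' e.source) := by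
  rw [uniqueMDiffOn_iff_uniqueDiffOn, co_img, OpenPartialHomeomorph.extend_target]
  rw [inter_comm]
  exact (𝓡∂ 2).uniqueDiffOn.inter (e.open_target.preimage (𝓡∂ 2).continuous_symm)

theorem range_uniq (z : E2) (hz : z ∈ range (𝓡∂ 2)) :
    UniqueMDiffWithinAt 𝓘(ℝ, E2) (range (𝓡∂ 2)) z := by
  rw [uniqueMDiffWithinAt_iff_uniqueDiffWithinAt]
  exact (𝓡∂ 2).uniqueDiffOn z hz

variable [ChartedSpace (EuclideanHalfSpace 2) M] [IsManifold (𝓡∂ 2) ∞ M]

set_option backward.isDefEq.respectTransparency false in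
theorem tv_inj {e : OpenPartialHomeomorph M (EuclideanHalfSpace 2)}
    (he : e ∈ IsManifold.maximalAtlas (𝓡∂ 2) ∞ M) {z : E2} (hz : z ∈ co e '' e.source) (v : E2)
    (hv : tv e z v = 0) : v = 0 := by
  have hzr : z ∈ range (𝓡∂ 2) := img_sub e hz
  have hps : pa e z ∈ e.source := by
    obtain ⟨x, hx, rfl⟩ := hz
    rw [pa, co, OpenPartialHomeomorph.extend_left_inv e hx]
    exact hx
  have hco : MDifferentiableAt (𝓡∂ 2) 𝓘(ℝ, E2) (co e) (pa e z) :=
    ((e.contMDiffOn_extend he).mdifferentiableOn (by simp)).mdifferentiableAt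
      (e.open_source.mem_nhds hps)
  have hcomp := mfderiv_comp_mfderivWithin z hco (pa_mdiff he hz) (range_uniq z hzr)
  have hid : (co e ∘ pa e) =ᶠ[𝓝[range (𝓡∂ 2)] z] id := by
    filter_upwards [img_mem e hz] with y hy
    obtain ⟨x, hx, rfl⟩ := hy
    show co e (pa e (co e x)) = co e x
    rw [pa, co, OpenPartialHomeomorph.extend_left_inv e hx]
  have hcz : co e (pa e z) = z := by
    obtain ⟨x, hx, rfl⟩ := hz
    rw [pa, co, OpenPartialHomeomorph.extend_left_inv e hx]
  rw [hid.mfderivWithin_eq hcz, mfderivWithin_id (range_uniq z hzr)] at hcomp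
  have h2 := congrArg (fun L => L v) hcomp
  have h3 : (mfderivWithin 𝓘(ℝ, E2) (𝓡∂ 2) (pa e) (range (𝓡∂ 2)) z) v = 0 := hv
  have h4 : ((mfderiv (𝓡∂ 2) 𝓘(ℝ, E2) (co e) (pa e z)).comp
      (mfderivWithin 𝓘(ℝ, E2) (𝓡∂ 2) (pa e) (range (𝓡∂ 2)) z)) v =
      (mfderiv (𝓡∂ 2) 𝓘(ℝ, E2) (co e) (pa e z))
        ((mfderivWithin 𝓘(ℝ, E2) (𝓡∂ 2) (pa e) (range (𝓡∂ 2)) z) v) := rfl
  have h5 : v = ((mfderiv (𝓡∂ 2) 𝓘(ℝ, E2) (co e) (pa e z)).comp
      (mfderivWithin 𝓘(ℝ, E2) (𝓡∂ 2) (pa e) (range (𝓡∂ 2)) z)) v := h2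
  rw [h5, h4, h3, map_zero]

theorem tv_decomp (e : OpenPartialHomeomorph M (EuclideanHalfSpace 2)) (z v : E2) :
    tv e z v = v 0 • tv e z (bv 0) + v 1 • tv e z (bv 1) := by
  have h : v = v 0 • bv 0 + v 1 • bv 1 := by
    ext i
    fin_cases i <;> simp [bv]
  let L : E2 →L[ℝ] TangentSpace (𝓡∂ 2) (pa e z) :=
    mfderivWithin 𝓘(ℝ, E2) (𝓡∂ 2) (pa e) (range (𝓡∂ 2)) z
  have hL : ∀ v, tv e z v = L v := fun _ => rfl
  rw [hL, hL, hL, ← map_smul, ← map_smul, ← map_add, ← h]

end

set_option backward.isDefEq.respectTransparency false in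
theorem stGram : StGram := by
  intro M _ _ _ _ hR e he
  haveI : IsContinuousRiemannianBundle E2 (fun x : M => TangentSpace (𝓡∂ 2) x) := by
    obtain ⟨g, hg, hh⟩ := hR.exists_contMDiff
    exact ⟨g, hg.continuous, hh⟩
  have hquad : ∀ z ∈ co e '' e.source, ∀ v, ‖tv e z v‖ ^ 2 =
        gram e z 0 0 * v 0 ^ 2 + 2 * gram e z 0 1 * (v 0 * v 1) + gram e z 1 1 * v 1 ^ 2 := by
    intro z _ v
    rw [← real_inner_self_eq_norm_sq, tv_decomp e z v]
    simp only [gram, Matrix.of_apply]
    rw [inner_add_left, inner_add_right, inner_add_right, real_inner_smul_left,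
      real_inner_smul_left, real_inner_smul_left, real_inner_smul_left, real_inner_smul_right,
      real_inner_smul_right, real_inner_smul_right, real_inner_smul_right,
      real_inner_comm (tv e z (bv 0)) (tv e z (bv 1))]
    ring
  have hpos : ∀ z ∈ co e '' e.source, ∀ v, v ≠ 0 → 0 < ‖tv e z v‖ := by
    intro z hz v hv
    rw [norm_pos_iff]
    exact fun h => hv (tv_inj he hz v h)
  refine ⟨?_, hpos, ?_, hquad⟩
  · intro i j
    -- continuity
    have hsec : ∀ v : E2, ContinuousOn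
        (fun z => (⟨pa e z, tv e z v⟩ : TotalSpace E2 (fun x : M => TangentSpace (𝓡∂ 2) x)))
        (co e '' e.source) := by
      intro v
      have h1 := (pa_smooth he).continuousOn_tangentMapWithin (by simp) (img_uniq e)
      have h2 : ContinuousOn (fun z : E2 => (⟨z, v⟩ : TangentBundle 𝓘(ℝ, E2) E2))
          (co e '' e.source) := by
        have h3 : ContMDiffOn 𝓘(ℝ, E2) 𝓘(ℝ, E2).tangent 0
            (fun z : E2 => (⟨z, v⟩ : TangentBundle 𝓘(ℝ, E2) E2)) (co e '' e.source) := by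
          rw [contMDiffOn_vectorSpace_iff_contDiffOn (V := fun _ => v)]
          exact contDiffOn_const
        exact h3.continuousOn
      have h4 := h1.comp h2 (fun z hz => hz)
      refine h4.congr fun z hz => ?_
      show _ = tangentMapWithin 𝓘(ℝ, E2) (𝓡∂ 2) (pa e) (co e '' e.source) ⟨z, v⟩
      have h5 : mfderivWithin 𝓘(ℝ, E2) (𝓡∂ 2) (pa e) (co e '' e.source) z =
          mfderivWithin 𝓘(ℝ, E2) (𝓡∂ 2) (pa e) (range (𝓡∂ 2)) z :=
        (pa_mdiff he hz).mfderivWithin_mono (img_uniq e z hz) (img_sub e)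
      rw [tangentMapWithin]
      simp only [h5]
      rfl
    exact (hsec (bv i)).inner_bundle (hsec (bv j))
  · intro z hz
    have hb0 : (bv 0 : E2) ≠ 0 := by
      intro h
      have := congrArg (fun v : E2 => v 0) h
      simp [bv] at this
    have h00 : 0 < gram e z 0 0 := by
      have h := hpos z hz (bv 0) hb0
      have h2 := hquad z hz (bv 0)
      have h3 : gram e z 0 0 = ‖tv e z (bv 0)‖ ^ 2 := by
        rw [h2]
        simp [bv]
      rw [h3]
      positivity
    refine ⟨h00, ?_⟩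
    have hsym : gram e z 1 0 = gram e z 0 1 := by
      simp only [gram, Matrix.of_apply]
      exact real_inner_comm _ _
    set v : E2 := (gram e z 0 1) • bv 0 - (gram e z 0 0) • bv 1 with hv
    have hv0 : v 0 = gram e z 0 1 := by simp [hv, bv]
    have hv1 : v 1 = - gram e z 0 0 := by simp [hv, bv]
    have hvne : v ≠ 0 := by
      intro h
      have := congrArg (fun v : E2 => v 1) h
      simp only [hv1] at this
      have h9 : gram e z 0 0 = 0 := by simpa using this
      exact h00.ne' h9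
    have h := hpos z hz v hvne
    have h2 := hquad z hz v
    rw [hv0, hv1] at h2
    rw [Matrix.det_fin_two, hsym]
    have h3 : 0 < ‖tv e z v‖ ^ 2 := by positivity
    rw [h2] at h3
    have h4 : gram e z 0 0 * gram e z 0 1 ^ 2 +
        2 * gram e z 0 1 * (gram e z 0 1 * -gram e z 0 0) + gram e z 1 1 * (-gram e z 0 0) ^ 2 =
        gram e z 0 0 * (gram e z 0 0 * gram e z 1 1 - gram e z 0 1 * gram e z 0 1) := by ring
    rw [h4] at h3
    exact (mul_pos_iff_of_pos_left h00).1 h3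

end Pool.Agent.H170.FA
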